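import Pool.Agent.N728.SP.Def
import Pool.Agent.H398R2.BA1

/-! Project SP (helper728), task H3: the sum over `y` as a sum over a residue class; noncoprime classes. -/

set_option autoImplicit false

namespace Pool.Agent.N282.SP

open Finset Pool.Agent.H410R2 Pool.Agent.H378R2 Pool.Agent.H398R2.BV Pool.Agent.N728.SP

lemma coprime_iff_of_dvd_add {a b e : ℕ} (h : e ∣ a + b) : a.Coprime e ↔ b.Coprime e := by
  obtain ⟨t, ht⟩ := h
  have e1 : (a : ℤ) = -(b : ℤ) + (t : ℤ) * e := by
    have : (a : ℤ) + b = e * t := by exact_mod_cast ht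
    linarith
  rw [← Nat.isCoprime_iff_coprime, ← Nat.isCoprime_iff_coprime, e1,
    IsCoprime.add_mul_right_left_iff, IsCoprime.neg_left_iff]

theorem t_H3 : S_H3 := by
  intro M e m x Y X hsq hm hM hx he heM hX hXY
  obtain ⟨k, hk⟩ := hm
  have hm0 : 0 < m := Nat.pos_of_ne_zero (by rintro rfl; simp at hk; omega)
  have hMm : M / m = k := by rw [hk]; exact Nat.mul_div_cancel_left k hm0
  rw [hMm]
  set W : ℕ := M ^ 3 * x with hW
  have hW0 : 0 < W := by positivity
  have hcop : (M * k).Coprime e := by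
    apply Nat.Coprime.mul_left heM.symm
    exact Nat.Coprime.coprime_dvd_left ⟨m, by rw [hk]; ring⟩ heM.symm
  have : NeZero e := ⟨by omega⟩
  obtain ⟨c, hc⟩ : ∃ c : ℕ, e ∣ M * (m * x + k * c) + 1 := by
    set u : (ZMod e)ˣ := ZMod.unitOfCoprime (M * k) hcop
    refine ⟨((-(M * (m * x) + 1 : ZMod e)) * (u⁻¹ : (ZMod e)ˣ)).val, ?_⟩
    rw [← ZMod.natCast_eq_zero_iff]
    push_cast
    rw [ZMod.natCast_zmod_val]
    have hu : (u : ZMod e) = (M : ZMod e) * k := by
      rw [ZMod.coe_unitOfCoprime]; push_cast; rfl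
    have : (M : ZMod e) * (k * (-(M * (m * x) + 1 : ZMod e) * (u⁻¹ : (ZMod e)ˣ))) =
        -(M * (m * x) + 1 : ZMod e) := by
      have h2 : (u : ZMod e) * (u⁻¹ : (ZMod e)ˣ) = 1 := by simp
      rw [hu] at h2
      linear_combination (-(M * (m * x) + 1 : ZMod e)) * h2
    rw [mul_add, this]
    ring
  have hiff : ∀ y : ℕ, e ∣ M * (m * x + k * y) + 1 ↔ y ≡ c [MOD e] := by
    intro y
    constructor
    · intro hy
      have h1 : M * (m * x + k * y) + 1 ≡ M * (m * x + k * c) + 1 [MOD e] :=
        ((Nat.modEq_zero_iff_dvd.2 hy)).trans (Nat.modEq_zero_iff_dvd.2 hc).symm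
      have h2 : (M * (m * x) + 1) + M * k * y ≡ (M * (m * x) + 1) + M * k * c [MOD e] := by
        have e1 : (M * (m * x) + 1) + M * k * y = M * (m * x + k * y) + 1 := by ring
        have e2 : (M * (m * x) + 1) + M * k * c = M * (m * x + k * c) + 1 := by ring
        rw [e1, e2]; exact h1
      have h3 := Nat.ModEq.add_left_cancel' _ h2
      exact Nat.ModEq.cancel_left_of_coprime (by rw [Nat.gcd_comm]; exact hcop) h3
    · intro hy
      have h1 : M * (m * x + k * y) + 1 ≡ M * (m * x + k * c) + 1 [MOD e] := by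
        gcongr
      exact (Nat.modEq_zero_iff_dvd.1 (h1.trans (Nat.modEq_zero_iff_dvd.2 hc)))
  refine ⟨c, ?_, ?_⟩
  · -- coprimality
    have h1 : (W * c + 1).Coprime W := by
      rw [mul_comm, Nat.coprime_mul_right_add_left]
      exact Nat.coprime_one_left W
    rw [Nat.coprime_mul_iff_right]
    have hdvd : e ∣ (W * c + 1) + ((M * m * x) ^ 2 + M * m * x - 1) := by
      have hu1 : 1 ≤ M * m * x := by
        have : 0 < M * m * x := by positivity
        omega
      have h2 : (W * c + 1) + ((M * m * x) ^ 2 + M * m * x - 1) =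
          (M * m * x) * (M * (m * x + k * c) + 1) := by
        have h3 : W * c = (M * m * x) * (M * k * c) := by
          rw [hW]
          have : M ^ 3 = M * M * (m * k) := by rw [← hk]; ring
          rw [this]; ring
        have h4 : (M * m * x) ^ 2 + M * m * x - 1 + 1 = (M * m * x) ^ 2 + M * m * x := by
          have : 1 ≤ (M * m * x) ^ 2 + M * m * x := by nlinarith
          omega
        calc (W * c + 1) + ((M * m * x) ^ 2 + M * m * x - 1) 
            = W * c + ((M * m * x) ^ 2 + M * m * x - 1 + 1) := by ring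
          _ = _ := by rw [h4, h3]; ring
      rw [h2]
      exact Dvd.dvd.mul_left hc _
    constructor
    · intro h
      exact ((coprime_iff_of_dvd_add hdvd).1 h.2).symm
    · intro h
      exact ⟨h1, (coprime_iff_of_dvd_add hdvd).2 h.symm⟩
  · -- the sum
    have hS : psiLogAP X (W * e) (W * c + 1) =
        ∑ y ∈ (range (Y + 2)).filter (fun y => y ≡ c [MOD e] ∧ W * y + 1 ≤ ⌊X⌋₊),
          ArithmeticFunction.vonMangoldt (W * y + 1) * Real.log (X / ((W * y + 1 : ℕ) : ℝ)) := by
      rw [psiLogAP]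
      symm
      apply Finset.sum_nbij (fun y => W * y + 1)
      · intro y hy
        rw [mem_filter, mem_range] at hy
        rw [mem_filter, mem_Icc]
        refine ⟨⟨by omega, hy.2.2⟩, ?_⟩
        exact Nat.ModEq.add_right 1 (Nat.ModEq.mul_left' W hy.2.1)
      · intro y1 _ y2 _ h
        have h' : W * y1 + 1 = W * y2 + 1 := h
        exact Nat.eq_of_mul_eq_mul_left hW0 (by omega)
      · intro n hn
        rw [Finset.mem_coe, mem_filter, mem_Icc] at hn
        obtain ⟨⟨hn1, hn2⟩, hn3⟩ := hn
        have h1 : n ≡ 1 [MOD W] := by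
          have h2 : n ≡ W * c + 1 [MOD W] := Nat.ModEq.of_mul_right e hn3
          have h3 : W * c + 1 ≡ 1 [MOD W] := by
            have : W * c ≡ 0 [MOD W] := Nat.modEq_zero_iff_dvd.2 (dvd_mul_right _ _)
            simpa only [zero_add] using this.add_right 1
          exact h2.trans h3
        obtain ⟨y, hy⟩ := (Nat.modEq_iff_dvd' hn1).1 h1.symm
        have hny : n = W * y + 1 := by omega
        refine ⟨y, ?_, hny.symm⟩
        rw [Finset.mem_coe, mem_filter, mem_range]
        refine ⟨?_, ?_, by rw [← hny]; exact hn2⟩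
        · have h4 : (n : ℝ) ≤ X := (Nat.le_floor_iff (by linarith)).1 hn2
          have h5 : ((W * y + 1 : ℕ) : ℝ) ≤ ((W * (Y + 1) + 1 : ℕ) : ℝ) := by
            rw [← hny]
            refine h4.trans (hXY.trans (le_of_eq ?_))
            rw [hW]; push_cast; ring
          have h6 : W * y + 1 ≤ W * (Y + 1) + 1 := by exact_mod_cast h5
          have h7 : y ≤ Y + 1 := Nat.le_of_mul_le_mul_left (by omega) hW0
          omega
        · rw [hny] at hn3
          have h8 : W * y ≡ W * c [MOD W * e] := Nat.ModEq.add_right_cancel' 1 hn3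
          exact Nat.ModEq.mul_left_cancel' (by omega) h8
      · intro y _
        rfl
    rw [hS]
    have hsub : (range (Y + 2)).filter (fun y => y ≡ c [MOD e] ∧ W * y + 1 ≤ ⌊X⌋₊) ⊆
        (range (Y + 2)).filter (fun y => y ≡ c [MOD e]) := by
      intro y hy
      rw [mem_filter] at hy ⊢
      exact ⟨hy.1, hy.2.1⟩
    have hsub2 : (Icc 1 Y).filter (fun y => e ∣ M * (m * x + k * y) + 1) ⊆
        (range (Y + 2)).filter (fun y => y ≡ c [MOD e]) := by
      intro y hy
      rw [mem_filter, mem_Icc] at hy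
      rw [mem_filter, mem_range]
      exact ⟨by omega, (hiff y).1 hy.2⟩
    have hval : ∀ y : ℕ, W * y + 1 ≤ ⌊X⌋₊ → max 0 (Real.log (X / ((W * y + 1 : ℕ) : ℝ))) =
        Real.log (X / ((W * y + 1 : ℕ) : ℝ)) := by
      intro y hy
      have h1 : ((W * y + 1 : ℕ) : ℝ) ≤ X := (Nat.le_floor_iff (by linarith)).1 hy
      apply max_eq_right
      apply Real.log_nonneg
      rw [one_le_div (by positivity)]
      exact h1
    have hval2 : ∀ y : ℕ, ¬ (W * y + 1 ≤ ⌊X⌋₊) → max 0 (Real.log (X / ((W * y + 1 : ℕ) : ℝ))) = 0 := by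
      intro y hy
      have h1 : X < ((W * y + 1 : ℕ) : ℝ) := by
        by_contra h
        push Not at h
        exact hy (Nat.le_floor h)
      apply max_eq_left
      apply Real.log_nonpos (by positivity)
      rw [div_le_one (by positivity)]
      exact h1.le
    rw [Finset.sum_subset hsub2 (f := fun y => ArithmeticFunction.vonMangoldt (W * y + 1) *
        max 0 (Real.log (X / ((W * y + 1 : ℕ) : ℝ))))]
    · symm
      have e1 : ∑ y ∈ (range (Y + 2)).filter (fun y => y ≡ c [MOD e] ∧ W * y + 1 ≤ ⌊X⌋₊),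
          ArithmeticFunction.vonMangoldt (W * y + 1) * Real.log (X / ((W * y + 1 : ℕ) : ℝ)) =
          ∑ y ∈ (range (Y + 2)).filter (fun y => y ≡ c [MOD e] ∧ W * y + 1 ≤ ⌊X⌋₊),
          ArithmeticFunction.vonMangoldt (W * y + 1) *
            max 0 (Real.log (X / ((W * y + 1 : ℕ) : ℝ))) := by
        apply Finset.sum_congr rfl
        intro y hy
        rw [mem_filter] at hy
        rw [hval y hy.2.2]
      rw [e1]
      apply Finset.sum_subset hsub
      intro y hy hny
      rw [mem_filter] at hy hny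
      rw [hval2 y (fun h => hny ⟨hy.1, hy.2, h⟩), mul_zero]
    · intro y hy hny
      rw [mem_filter, mem_range] at hy
      have hcase : y = 0 ∨ y = Y + 1 := by
        by_contra hcon
        push Not at hcon
        apply hny
        rw [mem_filter, mem_Icc]
        exact ⟨by omega, (hiff y).2 hy.2⟩
      rcases hcase with rfl | rfl
      · simp
      · have h1 : X ≤ ((W * (Y + 1) + 1 : ℕ) : ℝ) := by
          refine hXY.trans (le_of_eq ?_)
          rw [hW]; push_cast; ring
        have h2 : max 0 (Real.log (X / ((W * (Y + 1) + 1 : ℕ) : ℝ))) = 0 := by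
          apply max_eq_left
          apply Real.log_nonpos (by positivity)
          rw [div_le_one (by positivity)]
          exact h1
        simp only [h2, mul_zero]

theorem t_NC : S_NC := by
  intro X q b hX hq hnc
  obtain ⟨p, hp, hpb, hpq⟩ := Nat.Prime.not_coprime_iff_dvd.1 hnc
  have hlogX : 0 ≤ Real.log X := Real.log_nonneg hX
  have hN1 : 1 ≤ ⌊X⌋₊ := Nat.le_floor (by exact_mod_cast hX)
  have h1 : psiLogAP X q b ≤ ∑ n ∈ (Icc 1 ⌊X⌋₊).filter (fun n => ¬ n.Coprime p),
      ArithmeticFunction.vonMangoldt n * Real.log X := by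
    rw [psiLogAP]
    have hsub : (Icc 1 ⌊X⌋₊).filter (fun n => n ≡ b [MOD q]) ⊆
        (Icc 1 ⌊X⌋₊).filter (fun n => ¬ n.Coprime p) := by
      intro n hn
      rw [mem_filter] at hn ⊢
      refine ⟨hn.1, fun hcop => ?_⟩
      have h2 : n ≡ b [MOD p] := hn.2.of_dvd hpq
      have h3 : p ∣ n := (Nat.modEq_zero_iff_dvd).1 (h2.trans (Nat.modEq_zero_iff_dvd.2 hpb))
      have := Nat.Coprime.eq_one_of_dvd (Nat.Coprime.symm hcop) h3
      exact hp.one_lt.ne' this
    refine (Finset.sum_le_sum ?_).trans (Finset.sum_le_sum_of_subset_of_nonneg hsub ?_)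
    · intro n hn
      rw [mem_filter, mem_Icc] at hn
      apply mul_le_mul_of_nonneg_left _ ArithmeticFunction.vonMangoldt_nonneg
      have hn1 : (1 : ℝ) ≤ n := by exact_mod_cast hn.1.1
      apply Real.log_le_log (by positivity)
      exact div_le_self (by linarith) hn1
    · intro n _ _
      exact mul_nonneg ArithmeticFunction.vonMangoldt_nonneg hlogX
  rw [← Finset.sum_mul] at h1
  have h4 := sum_not_coprime ⌊X⌋₊ p hp.one_lt.le
  rw [hp.primeFactors, Finset.card_singleton, Nat.cast_one, one_mul] at h4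
  have h5 : Real.log (⌊X⌋₊ : ℝ) ≤ Real.log X :=
    Real.log_le_log (by exact_mod_cast hN1) (Nat.floor_le (by linarith))
  calc psiLogAP X q b ≤ _ := h1
    _ ≤ Real.log X * Real.log X := mul_le_mul_of_nonneg_right (h4.trans h5) hlogX
    _ ≤ 2 * Real.log X ^ 2 := by nlinarith

end Pool.Agent.N282.SP
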